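import Mathlib

/-!
# Polynomials of `k` vectors and `k` covectors
-/

set_option autoImplicit false

open MvPolynomial Matrix

namespace Pool.Agent.H9.JE

/-- the value at `k` vectors (the columns of `v`) and `k` covectors (the columns of `ξ`) -/
noncomputable def val2 {n k : ℕ} (v ξ : Matrix (Fin n) (Fin k) ℝ)
    (f : MvPolynomial ((Fin n × Fin k) ⊕ (Fin n × Fin k)) ℝ) : ℝ :=
  eval (Sum.elim (fun q => v q.1 q.2) (fun q => ξ q.1 q.2)) f

/-- the last `k` coordinate vectors -/
def bot (m k : ℕ) : Matrix (Fin (m + k)) (Fin k) ℝ :=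
  Matrix.of fun i j => if (i : ℕ) = m + j then 1 else 0

end Pool.Agent.H9.JE
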