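import Pool.Agent.H9.JE.Defs

/-!
# The function `g ↦ f(g v, g⁻ᵀ ξ)` is a polynomial in the entries of `g`
-/

set_option autoImplicit false

open MvPolynomial Matrix

namespace Pool.Agent.H9.JE

/-- `p` = substitution in `f`: `inl (i, j) ↦ ∑ a, X (i, a) * C (v a j)`,
`inr (i, j) ↦ ∑ a, adjugate (of X) a i * C (ξ a j)` (`g⁻¹ = adjugate g` for `det g = 1`;
`RingHom.map_adjugate`, `Matrix.SpecialLinearGroup.coe_inv`). -/
theorem orbit_poly {n k : ℕ} (v ξ : Matrix (Fin n) (Fin k) ℝ)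
    (f : MvPolynomial ((Fin n × Fin k) ⊕ (Fin n × Fin k)) ℝ) :
    ∃ p : MvPolynomial (Fin n × Fin n) ℝ, ∀ g : SpecialLinearGroup (Fin n) ℝ,
      eval (fun ij => (g : Matrix (Fin n) (Fin n) ℝ) ij.1 ij.2) p =
        val2 ((g : Matrix (Fin n) (Fin n) ℝ) * v)
          (((g⁻¹ : SpecialLinearGroup (Fin n) ℝ) : Matrix (Fin n) (Fin n) ℝ)ᵀ * ξ) f := by
  classical
  let Y : Matrix (Fin n) (Fin n) (MvPolynomial (Fin n × Fin n) ℝ) := Matrix.of fun i j => X (i, j)
  refine ⟨aeval (Sum.elim (fun q : Fin n × Fin k => ∑ a, Y q.1 a * C (v a q.2))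
    (fun q : Fin n × Fin k => ∑ a, Y.adjugate a q.1 * C (ξ a q.2))) f, fun g => ?_⟩
  set e : MvPolynomial (Fin n × Fin n) ℝ →+* ℝ :=
    eval (fun ij : Fin n × Fin n => (g : Matrix (Fin n) (Fin n) ℝ) ij.1 ij.2) with he
  have hY : e.mapMatrix Y = (g : Matrix (Fin n) (Fin n) ℝ) := by
    ext i j
    simp [Y, he]
  have hadj : e.mapMatrix Y.adjugate =
      ((g⁻¹ : SpecialLinearGroup (Fin n) ℝ) : Matrix (Fin n) (Fin n) ℝ) := by
    rw [RingHom.map_adjugate, hY, Matrix.SpecialLinearGroup.coe_inv]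
  unfold val2
  rw [aeval_def, MvPolynomial.algebraMap_eq, MvPolynomial.eval₂_eq', map_sum,
    MvPolynomial.eval_eq']
  refine Finset.sum_congr rfl fun d _ => ?_
  rw [map_mul, map_prod]
  congr 1
  · exact eval_C _
  · refine Finset.prod_congr rfl fun i _ => ?_
    rw [map_pow]
    congr 1
    rcases i with q | q
    · simp only [Sum.elim_inl]
      rw [map_sum, Matrix.mul_apply]
      refine Finset.sum_congr rfl fun a _ => ?_
      rw [map_mul]
      congr 1
      · exact congrFun (congrFun hY q.1) a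
      · exact eval_C _
    · simp only [Sum.elim_inr]
      rw [map_sum, Matrix.mul_apply]
      refine Finset.sum_congr rfl fun a _ => ?_
      rw [map_mul]
      congr 1
      · exact congrFun (congrFun hadj a) q.1
      · exact eval_C _

end Pool.Agent.H9.JE
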