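import Pool.Agent.H9.JE.Defs

/-!
# A unimodular matrix with prescribed last columns
-/

set_option autoImplicit false

open Matrix Module

namespace Pool.Agent.H9.JE

/-- The last `k` columns of `g` are `v`; the first `m` columns are linearly independent vectors in
the kernel of `ξᵀ` (dimension `≥ m`). If a combination of the columns is zero, apply `ξᵀ`: the
coefficients of the last ones are zero because `det (vᵀ ξ) ≠ 0`. Divide the first column by the
determinant. -/
theorem exists_sl {m k : ℕ} (hm : 0 < m) (v ξ : Matrix (Fin (m + k)) (Fin k) ℝ)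
    (h : (vᵀ * ξ).det ≠ 0) :
    ∃ g : SpecialLinearGroup (Fin (m + k)) ℝ,
      (g : Matrix (Fin (m + k)) (Fin (m + k)) ℝ) * bot m k = v ∧
      (g : Matrix (Fin (m + k)) (Fin (m + k)) ℝ)ᵀ * ξ = bot m k * (vᵀ * ξ) := by
  classical
  -- the kernel of `ξᵀ`
  let L : (Fin (m + k) → ℝ) →ₗ[ℝ] (Fin k → ℝ) := Matrix.mulVecLin ξᵀ
  have hdim : m ≤ finrank ℝ (LinearMap.ker L) := by
    have h1 := LinearMap.finrank_range_add_finrank_ker L
    have h2 : finrank ℝ (LinearMap.range L) ≤ k := by
      have := Submodule.finrank_le (LinearMap.range L)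
      rwa [finrank_fin_fun] at this
    rw [finrank_fin_fun] at h1
    omega
  let b : Fin m → (Fin (m + k) → ℝ) := fun a =>
    ((finBasis ℝ (LinearMap.ker L) (Fin.castLE hdim a) : LinearMap.ker L) : Fin (m + k) → ℝ)
  have hb : LinearIndependent ℝ b := by
    have h1 := (finBasis ℝ (LinearMap.ker L)).linearIndependent.comp (Fin.castLE hdim)
      (Fin.castLE_injective hdim)
    exact h1.map' (LinearMap.ker L).subtype (Submodule.ker_subtype _)
  have hbk : ∀ a, ξᵀ *ᵥ b a = 0 := fun a =>
    (finBasis ℝ (LinearMap.ker L) (Fin.castLE hdim a)).2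
  -- the matrix
  let A : Matrix (Fin (m + k)) (Fin (m + k)) ℝ :=
    Matrix.of fun i j => Fin.addCases (fun a => b a i) (fun c => v i c) j
  have hA1 : ∀ i (a : Fin m), A i (Fin.castAdd k a) = b a i := fun i a => by
    simp [A]
  have hA2 : ∀ i (c : Fin k), A i (Fin.natAdd m c) = v i c := fun i c => by
    simp [A]
  have hAw : ∀ w : Fin (m + k) → ℝ, A *ᵥ w =
      ∑ a : Fin m, w (Fin.castAdd k a) • b a + v *ᵥ (fun c => w (Fin.natAdd m c)) := by
    intro w
    funext i
    rw [Matrix.mulVec, dotProduct, Fin.sum_univ_add, Pi.add_apply, Finset.sum_apply,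
      Matrix.mulVec, dotProduct]
    congr 1
    · exact Finset.sum_congr rfl fun a _ => by
        rw [hA1, Pi.smul_apply, smul_eq_mul, mul_comm]
    · exact Finset.sum_congr rfl fun c _ => by rw [hA2]
  have hdet : A.det ≠ 0 := by
    intro h0
    obtain ⟨w, hw0, hw⟩ := Matrix.exists_mulVec_eq_zero_iff.2 h0
    apply hw0
    rw [hAw] at hw
    have h1 : (ξᵀ * v) *ᵥ (fun c => w (Fin.natAdd m c)) = 0 := by
      have h2 := congrArg (fun y => ξᵀ *ᵥ y) hw
      simp only [Matrix.mulVec_add, Matrix.mulVec_zero, Matrix.mulVec_mulVec] at h2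
      have h3 : ξᵀ *ᵥ (∑ a : Fin m, w (Fin.castAdd k a) • b a) = 0 := by
        rw [Matrix.mulVec_sum]
        refine Finset.sum_eq_zero fun a _ => ?_
        rw [Matrix.mulVec_smul, hbk, smul_zero]
      rwa [h3, zero_add] at h2
    have h4 : (ξᵀ * v).det ≠ 0 := by
      have h5 : ξᵀ * v = (vᵀ * ξ)ᵀ := by
        rw [Matrix.transpose_mul, Matrix.transpose_transpose]
      rw [h5, Matrix.det_transpose]
      exact h
    have h6 : (fun c => w (Fin.natAdd m c)) = 0 := by
      by_contra h7
      exact h4 (Matrix.exists_mulVec_eq_zero_iff.1 ⟨_, h7, h1⟩)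
    rw [h6, Matrix.mulVec_zero, add_zero] at hw
    have h8 := Fintype.linearIndependent_iff.1 hb (fun a => w (Fin.castAdd k a)) hw
    funext i
    refine Fin.addCases (fun a => ?_) (fun c => ?_) i
    · exact h8 a
    · exact congrFun h6 c
  -- normalization
  let i₀ : Fin (m + k) := Fin.castAdd k ⟨0, hm⟩
  let D : Fin (m + k) → ℝ := fun i => if i = i₀ then A.det⁻¹ else 1
  have hD : ∏ i, D i = A.det⁻¹ := by
    rw [Finset.prod_ite_eq' Finset.univ i₀ fun _ => A.det⁻¹]
    simp
  refine ⟨⟨A * Matrix.diagonal D, ?_⟩, ?_, ?_⟩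
  · rw [Matrix.det_mul, Matrix.det_diagonal, hD, mul_inv_cancel₀ hdet]
  · show A * Matrix.diagonal D * bot m k = v
    ext i j
    rw [Matrix.mul_apply, Finset.sum_eq_single (Fin.natAdd m j)]
    · rw [Matrix.mul_diagonal, hA2]
      have h1 : D (Fin.natAdd m j) = 1 := by
        have h2 : Fin.natAdd m j ≠ i₀ := by
          intro h3
          have h4 := congrArg Fin.val h3
          simp [i₀] at h4
          omega
        simp [D, h2]
      simp only [bot, Matrix.of_apply]
      rw [h1, if_pos (Fin.val_natAdd m j), mul_one, mul_one]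
    · intro a _ ha
      simp only [bot, Matrix.of_apply]
      rw [if_neg (fun h => ha (Fin.ext (by rw [Fin.val_natAdd]; exact h))), mul_zero]
    · intro h
      exact absurd (Finset.mem_univ _) h
  · show (A * Matrix.diagonal D)ᵀ * ξ = bot m k * (vᵀ * ξ)
    ext i j
    refine Fin.addCases (fun a => ?_) (fun c => ?_) i
    · have h1 : ((A * Matrix.diagonal D)ᵀ * ξ) (Fin.castAdd k a) j =
          D (Fin.castAdd k a) * (ξᵀ *ᵥ b a) j := by
        rw [Matrix.mul_apply, Matrix.mulVec, dotProduct, Finset.mul_sum]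
        refine Finset.sum_congr rfl fun l _ => ?_
        rw [Matrix.transpose_apply, Matrix.mul_diagonal, hA1, Matrix.transpose_apply]
        ring
      rw [h1, hbk, Pi.zero_apply, mul_zero, Matrix.mul_apply]
      refine (Finset.sum_eq_zero fun l _ => ?_).symm
      simp only [bot, Matrix.of_apply]
      rw [if_neg (by
        rw [Fin.val_castAdd]
        have := a.2
        omega), zero_mul]
    · have h1 : D (Fin.natAdd m c) = 1 := by
        have h2 : Fin.natAdd m c ≠ i₀ := by
          intro h3
          have h4 := congrArg Fin.val h3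
          simp [i₀] at h4
          omega
        simp [D, h2]
      rw [Matrix.mul_apply, Matrix.mul_apply, Finset.sum_eq_single c]
      · simp only [bot, Matrix.of_apply]
        rw [if_pos (Fin.val_natAdd m c), one_mul, Matrix.mul_apply]
        refine Finset.sum_congr rfl fun l _ => ?_
        rw [Matrix.transpose_apply, Matrix.mul_diagonal, hA2, h1, mul_one, Matrix.transpose_apply]
      · intro a _ ha
        simp only [bot, Matrix.of_apply]
        rw [if_neg (by
          rw [Fin.val_natAdd]
          intro h3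
          exact ha (Fin.ext (by omega))), zero_mul]
      · intro h
        exact absurd (Finset.mem_univ _) h

end Pool.Agent.H9.JE
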