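import Pool.Agent.H9.JE.Defs

/-!
# Extension of the identity to all vectors and covectors
-/

set_option autoImplicit false

open MvPolynomial Matrix

namespace Pool.Agent.H9.JE

private theorem eval_aeval' {σ τ : Type} [Fintype σ] (F : σ → MvPolynomial τ ℝ) (y : τ → ℝ)
    (f : MvPolynomial σ ℝ) : eval y (aeval F f) = eval (fun i => eval y (F i)) f := by
  rw [aeval_def, MvPolynomial.algebraMap_eq, MvPolynomial.eval₂_eq', map_sum,
    MvPolynomial.eval_eq']
  refine Finset.sum_congr rfl fun d _ => ?_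
  rw [map_mul, map_prod, eval_C]
  congr 1
  exact Finset.prod_congr rfl fun i _ => map_pow _ _ _

/-- `φ` = substitution in `f`: `inl (i, j) ↦ C (b i j)`, `inr (i, j) ↦ ∑ a, C (b i a) * X (a, j)`.
The polynomial `f - φ(vᵀ ξ)` in the variables `(v, ξ)` times the polynomial `det (vᵀ ξ)` is zero at
all points, so it is zero; `det (vᵀ ξ)` is not the zero polynomial (value `1` at `v = ξ = b`). -/
theorem ext_pair {n k : ℕ} (b : Matrix (Fin n) (Fin k) ℝ) (hb : bᵀ * b = 1)
    (f : MvPolynomial ((Fin n × Fin k) ⊕ (Fin n × Fin k)) ℝ)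
    (h : ∀ v ξ : Matrix (Fin n) (Fin k) ℝ, (vᵀ * ξ).det ≠ 0 →
      val2 v ξ f = val2 b (b * (vᵀ * ξ)) f) :
    ∃ φ : MvPolynomial (Fin k × Fin k) ℝ, ∀ v ξ : Matrix (Fin n) (Fin k) ℝ,
      val2 v ξ f = eval (fun p => (vᵀ * ξ) p.1 p.2) φ := by
  classical
  let φ : MvPolynomial (Fin k × Fin k) ℝ :=
    aeval (Sum.elim (fun q : Fin n × Fin k => C (b q.1 q.2))
      (fun q : Fin n × Fin k => ∑ a, C (b q.1 a) * X (a, q.2))) f
  have hφ : ∀ M : Matrix (Fin k) (Fin k) ℝ, eval (fun p => M p.1 p.2) φ = val2 b (b * M) f := by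
    intro M
    show eval _ (aeval _ f) = _
    rw [eval_aeval']
    unfold val2
    refine congrArg (fun y => eval y f) ?_
    funext q
    rcases q with q | q
    · simp
    · simp [Matrix.mul_apply]
  let N := (Fin n × Fin k) ⊕ (Fin n × Fin k)
  let P : Matrix (Fin k) (Fin k) (MvPolynomial N ℝ) :=
    Matrix.of fun i j => ∑ a, X (Sum.inl (a, i)) * X (Sum.inr (a, j))
  have hP : ∀ (v ξ : Matrix (Fin n) (Fin k) ℝ) (i j : Fin k),
      eval (Sum.elim (fun q : Fin n × Fin k => v q.1 q.2) (fun q => ξ q.1 q.2)) (P i j) =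
        (vᵀ * ξ) i j := by
    intro v ξ i j
    simp [P, Matrix.mul_apply]
  let ψ : MvPolynomial N ℝ := aeval (fun p : Fin k × Fin k => P p.1 p.2) φ
  have hψ : ∀ v ξ : Matrix (Fin n) (Fin k) ℝ,
      eval (Sum.elim (fun q : Fin n × Fin k => v q.1 q.2) (fun q => ξ q.1 q.2)) ψ =
        eval (fun p => (vᵀ * ξ) p.1 p.2) φ := by
    intro v ξ
    show eval _ (aeval _ φ) = _
    rw [eval_aeval']
    refine congrArg (fun y => eval y φ) ?_
    funext p
    exact hP v ξ p.1 p.2
  have hD : ∀ v ξ : Matrix (Fin n) (Fin k) ℝ,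
      eval (Sum.elim (fun q : Fin n × Fin k => v q.1 q.2) (fun q => ξ q.1 q.2)) P.det =
        (vᵀ * ξ).det := by
    intro v ξ
    rw [RingHom.map_det]
    congr 1
    ext i j
    exact hP v ξ i j
  have hzero : (f - ψ) * P.det = 0 := by
    refine MvPolynomial.funext fun x => ?_
    have hx : x = Sum.elim (fun q : Fin n × Fin k => (Matrix.of fun i j => x (Sum.inl (i, j)) :
        Matrix (Fin n) (Fin k) ℝ) q.1 q.2) (fun q => (Matrix.of fun i j => x (Sum.inr (i, j)) :
        Matrix (Fin n) (Fin k) ℝ) q.1 q.2) := by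
      funext q
      rcases q with q | q <;> rfl
    rw [hx, map_mul, map_sub, hψ, hD, map_zero]
    by_cases hdet : ((Matrix.of fun i j => x (Sum.inl (i, j)) : Matrix (Fin n) (Fin k) ℝ)ᵀ *
        (Matrix.of fun i j => x (Sum.inr (i, j)) : Matrix (Fin n) (Fin k) ℝ)).det = 0
    · rw [hdet, mul_zero]
    · rw [hφ, ← h _ _ hdet]
      unfold val2
      rw [sub_self, zero_mul]
  have hD0 : P.det ≠ 0 := by
    intro h0
    have h1 := hD b b
    rw [h0, map_zero, hb, Matrix.det_one] at h1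
    exact zero_ne_one h1
  have hfψ : f = ψ := sub_eq_zero.1 ((mul_eq_zero.1 hzero).resolve_right hD0)
  refine ⟨φ, fun v ξ => ?_⟩
  unfold val2
  conv_lhs => rw [hfψ]
  exact hψ v ξ

end Pool.Agent.H9.JE
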