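import Pool.Agent.H9.IP.Main
import Pool.Agent.H9.JE.PA
import Pool.Agent.H9.JE.PB
import Pool.Agent.H9.JE.PC

/-!
# Invariants of `k` vectors and `k` covectors for the standard embedding, `k = n - m`
-/

set_option autoImplicit false

open MvPolynomial Matrix

namespace Pool.Agent.H9.JE

theorem bot_bot (m k : ℕ) : (bot m k)ᵀ * bot m k = 1 := by
  ext i j
  rw [Matrix.mul_apply, Matrix.one_apply]
  simp only [Matrix.transpose_apply, bot, Matrix.of_apply]
  rw [Finset.sum_eq_single (Fin.natAdd m i)]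
  · rw [if_pos (Fin.val_natAdd m i)]
    by_cases h : i = j
    · subst h
      rw [if_pos (Fin.val_natAdd m i), if_pos rfl, mul_one]
    · rw [if_neg (by
        rw [Fin.val_natAdd]
        intro h1
        exact h (Fin.ext (by omega))), if_neg h, mul_zero]
  · intro a _ ha
    rw [if_neg (fun h => ha (Fin.ext (by rw [Fin.val_natAdd]; exact h))), zero_mul]
  · intro h
    exact absurd (Finset.mem_univ _) h

/-- the standard embedding fixes the last vectors and covectors -/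
theorem std_fix {m k : ℕ}
    (A : Matrix (Fin (m + k)) (Fin (m + k)) ℝ)
    (h1 : ∀ i j : Fin (m + k), m ≤ (i : ℕ) → A i j = if i = j then 1 else 0)
    (h2 : ∀ i j : Fin (m + k), m ≤ (j : ℕ) → A i j = if i = j then 1 else 0) :
    A * bot m k = bot m k ∧ Aᵀ * bot m k = bot m k := by
  constructor
  · ext i j
    rw [Matrix.mul_apply, Finset.sum_eq_single (Fin.natAdd m j)]
    · rw [h2 i _ (by rw [Fin.val_natAdd]; omega)]
      simp only [bot, Matrix.of_apply]
      rw [if_pos (Fin.val_natAdd m j), mul_one]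
      by_cases h : i = Fin.natAdd m j
      · rw [if_pos h, h, if_pos (Fin.val_natAdd m j)]
      · rw [if_neg h, if_neg (fun h3 => h (Fin.ext (by rw [Fin.val_natAdd]; exact h3)))]
    · intro a _ ha
      simp only [bot, Matrix.of_apply]
      rw [if_neg (fun h => ha (Fin.ext (by rw [Fin.val_natAdd]; exact h))), mul_zero]
    · intro h
      exact absurd (Finset.mem_univ _) h
  · ext i j
    rw [Matrix.mul_apply, Finset.sum_eq_single (Fin.natAdd m j)]
    · rw [Matrix.transpose_apply, h1 _ i (by rw [Fin.val_natAdd]; omega)]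
      simp only [bot, Matrix.of_apply]
      rw [if_pos (Fin.val_natAdd m j), mul_one]
      by_cases h : i = Fin.natAdd m j
      · rw [if_pos h.symm, h, if_pos (Fin.val_natAdd m j)]
      · rw [if_neg (fun h' => h h'.symm),
          if_neg (fun h3 => h (Fin.ext (by rw [Fin.val_natAdd]; exact h3)))]
    · intro a _ ha
      simp only [bot, Matrix.of_apply]
      rw [if_neg (fun h => ha (Fin.ext (by rw [Fin.val_natAdd]; exact h))), mul_zero]
    · intro h
      exact absurd (Finset.mem_univ _) h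

/-- invariants of `k` vectors and `k` covectors are polynomials in the pairings -/
theorem pairings {m k : ℕ} (hm : 0 < m) (H Γ : Subgroup (SpecialLinearGroup (Fin (m + k)) ℝ))
    (hcov : ∃ C : Set (SpecialLinearGroup (Fin (m + k)) ℝ), IsCompact C ∧
      ∀ g, ∃ γ ∈ Γ, ∃ h ∈ H, γ * g * h ∈ C)
    (hfix : ∀ h ∈ H, (h : Matrix (Fin (m + k)) (Fin (m + k)) ℝ) * bot m k = bot m k ∧
      (h : Matrix (Fin (m + k)) (Fin (m + k)) ℝ)ᵀ * bot m k = bot m k)
    (f : MvPolynomial ((Fin (m + k) × Fin k) ⊕ (Fin (m + k) × Fin k)) ℝ)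
    (hf : ∀ γ ∈ Γ, ∀ v ξ : Matrix (Fin (m + k)) (Fin k) ℝ,
      val2 ((γ : Matrix (Fin (m + k)) (Fin (m + k)) ℝ) * v)
        (((γ⁻¹ : SpecialLinearGroup (Fin (m + k)) ℝ) :
          Matrix (Fin (m + k)) (Fin (m + k)) ℝ)ᵀ * ξ) f = val2 v ξ f) :
    ∃ φ : MvPolynomial (Fin k × Fin k) ℝ, ∀ v ξ : Matrix (Fin (m + k)) (Fin k) ℝ,
      val2 v ξ f = eval (fun p => (vᵀ * ξ) p.1 p.2) φ := by
  refine ext_pair (bot m k) (bot_bot m k) f fun v ξ hdet => ?_
  obtain ⟨g, hg1, hg2⟩ := exists_sl hm v ξ hdet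
  obtain ⟨p, hp⟩ := orbit_poly (bot m k) (bot m k * (vᵀ * ξ)) f
  have hinv : ∀ x : SpecialLinearGroup (Fin (m + k)) ℝ,
      ((x⁻¹ : SpecialLinearGroup (Fin (m + k)) ℝ) : Matrix (Fin (m + k)) (Fin (m + k)) ℝ)ᵀ *
        (x : Matrix (Fin (m + k)) (Fin (m + k)) ℝ)ᵀ = 1 := by
    intro x
    rw [← Matrix.transpose_mul, ← Matrix.SpecialLinearGroup.coe_mul, mul_inv_cancel,
      Matrix.SpecialLinearGroup.coe_one, Matrix.transpose_one]
  have hm2 : ∀ x y : SpecialLinearGroup (Fin (m + k)) ℝ,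
      (((x * y)⁻¹ : SpecialLinearGroup (Fin (m + k)) ℝ) :
        Matrix (Fin (m + k)) (Fin (m + k)) ℝ)ᵀ =
      ((x⁻¹ : SpecialLinearGroup (Fin (m + k)) ℝ) : Matrix (Fin (m + k)) (Fin (m + k)) ℝ)ᵀ *
        ((y⁻¹ : SpecialLinearGroup (Fin (m + k)) ℝ) :
          Matrix (Fin (m + k)) (Fin (m + k)) ℝ)ᵀ := by
    intro x y
    rw [← Matrix.transpose_mul, ← Matrix.SpecialLinearGroup.coe_mul, _root_.mul_inv_rev]
  have h := Pool.Agent.H9.IP.regular_const H Γ hcov p
    (fun g => val2 ((g : Matrix (Fin (m + k)) (Fin (m + k)) ℝ) * bot m k)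
      (((g⁻¹ : SpecialLinearGroup (Fin (m + k)) ℝ) : Matrix (Fin (m + k)) (Fin (m + k)) ℝ)ᵀ *
        (bot m k * (vᵀ * ξ))) f) (fun g => (hp g).symm) ?_ ?_ g
  · have h1 : ((g⁻¹ : SpecialLinearGroup (Fin (m + k)) ℝ) :
        Matrix (Fin (m + k)) (Fin (m + k)) ℝ)ᵀ * (bot m k * (vᵀ * ξ)) = ξ := by
      rw [← hg2, ← Matrix.mul_assoc, hinv, Matrix.one_mul]
    simp only [h1, hg1] at h
    rw [h]
    have h2 : (((1 : SpecialLinearGroup (Fin (m + k)) ℝ)⁻¹ :
        SpecialLinearGroup (Fin (m + k)) ℝ) : Matrix (Fin (m + k)) (Fin (m + k)) ℝ)ᵀ = 1 := by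
      rw [inv_one, Matrix.SpecialLinearGroup.coe_one, Matrix.transpose_one]
    rw [h2, Matrix.SpecialLinearGroup.coe_one, Matrix.one_mul, Matrix.one_mul]
  · intro γ hγ g
    show val2 (((γ * g : SpecialLinearGroup (Fin (m + k)) ℝ) :
      Matrix (Fin (m + k)) (Fin (m + k)) ℝ) * bot m k) _ f = _
    rw [hm2, Matrix.SpecialLinearGroup.coe_mul, Matrix.mul_assoc, Matrix.mul_assoc]
    exact hf γ hγ _ _
  · intro x hx g
    show val2 (((g * x : SpecialLinearGroup (Fin (m + k)) ℝ) :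
      Matrix (Fin (m + k)) (Fin (m + k)) ℝ) * bot m k) _ f = _
    have h3 := (hfix x⁻¹ (H.inv_mem hx)).2
    rw [hm2, Matrix.SpecialLinearGroup.coe_mul, Matrix.mul_assoc, Matrix.mul_assoc,
      (hfix x hx).1, ← Matrix.mul_assoc (((x⁻¹ : SpecialLinearGroup (Fin (m + k)) ℝ) :
          Matrix (Fin (m + k)) (Fin (m + k)) ℝ)ᵀ), h3]

end Pool.Agent.H9.JE
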